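import Pool.Agent.J6H54.CG.Stm

/-!
# CG-18: upper bound for `F_m`
-/

set_option autoImplicit false

namespace Pool.Agent.J6H35.CG18

open Finset Pool.Agent.J6H54.CG

/-- the orbit of `r` under multiplication by `k` modulo `k ^ m - 1` -/
def sg (k m r j : ℕ) : ℕ := (k ^ j * r) % (k ^ m - 1)

theorem npos {k m : ℕ} (hk : 2 ≤ k) (hm : 1 ≤ m) : 0 < k ^ m - 1 := by
  have : 1 < k ^ m := Nat.one_lt_pow (by omega) (by omega)
  omega

theorem sg_lt {k m : ℕ} (hk : 2 ≤ k) (hm : 1 ≤ m) (r j : ℕ) : sg k m r j < k ^ m := by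
  have h1 := Nat.mod_lt (k ^ j * r) (npos hk hm)
  unfold sg
  omega

theorem geom_eq {k q : ℕ} (hk : 2 ≤ k) (d : ℕ) :
    (k ^ q - 1) * ∑ i ∈ range d, k ^ (q * i) = k ^ (q * d) - 1 := by
  have h0 : 1 ≤ k ^ q := Nat.one_le_pow _ _ (by omega)
  obtain ⟨x, hx⟩ : ∃ x, k ^ q = x + 1 := ⟨k ^ q - 1, by omega⟩
  have h1 := geom_sum_mul_add x d
  have h2 : ∑ i ∈ range d, k ^ (q * i) = ∑ i ∈ range d, (x + 1) ^ i := by
    apply Finset.sum_congr rfl
    intro i _
    rw [pow_mul, hx]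
  rw [h2, pow_mul, hx, ← h1, Nat.add_sub_cancel, Nat.add_sub_cancel, mul_comm]

theorem exists_geom {k m r : ℕ} (hk : 2 ≤ k) (hm : 1 ≤ m) (hr : r < k ^ m - 1) {j j' : ℕ}
    (hjj : j < j') (hj' : j' < m) (h : sg k m r j = sg k m r j') :
    ∃ q ∈ m.properDivisors, ∃ b ∈ range (k ^ q), geomB k b q (m / q) = r := by
  obtain ⟨p, rfl⟩ := Nat.exists_eq_add_of_le hjj.le
  have hp : 0 < p := by omega
  have hcop : Nat.Coprime (k ^ m - 1) (k ^ j) := by
    have h1 : Nat.Coprime (k ^ m - 1) (k ^ m - 1 + 1) :=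
      Nat.coprime_self_add_right.mpr (Nat.coprime_one_right _)
    have h2 : k ^ m - 1 + 1 = k ^ m := by
      have := npos hk hm
      omega
    rw [h2] at h1
    exact Nat.Coprime.coprime_dvd_right (pow_dvd_pow k (by omega)) h1
  have h1 : k ^ j * r ≡ k ^ j * (k ^ p * r) [MOD (k ^ m - 1)] := by
    have : k ^ (j + p) * r = k ^ j * (k ^ p * r) := by ring
    rw [← this]
    exact h
  have h2 : r ≡ k ^ p * r [MOD (k ^ m - 1)] := Nat.ModEq.cancel_left_of_coprime hcop h1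
  have hkp : 1 ≤ k ^ p := Nat.one_le_pow _ _ (by omega)
  have h3 : (k ^ m - 1) ∣ k ^ p * r - r :=
    (Nat.modEq_iff_dvd' (Nat.le_mul_of_pos_left r (by omega))).mp h2
  have h4 : k ^ p * r - r = r * (k ^ p - 1) := by
    rw [Nat.mul_sub, mul_one, mul_comm]
  rw [h4] at h3
  have h5 : (k ^ m - 1) ∣ r * (k ^ m - 1) := Dvd.intro_left r rfl
  have h6 : (k ^ m - 1) ∣ r * (k ^ (Nat.gcd p m) - 1) := by
    rw [← Nat.pow_sub_one_gcd_pow_sub_one, ← Nat.gcd_mul_left]
    exact Nat.dvd_gcd h3 h5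
  set q := Nat.gcd p m with hq
  have hq0 : 0 < q := Nat.gcd_pos_of_pos_left _ hp
  have hqm : q ∣ m := Nat.gcd_dvd_right p m
  have hqp : q ≤ p := Nat.gcd_le_left m hp
  obtain ⟨d, hd⟩ := hqm
  have hdm : m / q = d := by
    rw [hd]
    exact Nat.mul_div_cancel_left d hq0
  have hkq : 0 < k ^ q - 1 := npos hk hq0
  have h7 := geom_eq (k := k) (q := q) hk d
  rw [← hd] at h7
  refine ⟨q, Nat.mem_properDivisors.mpr ⟨Dvd.intro d hd.symm, by omega⟩, ?_⟩
  rw [← h7, mul_comm r] at h6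
  have h8 := Nat.dvd_of_mul_dvd_mul_left hkq h6
  obtain ⟨b, hb⟩ := h8
  have hlt : b < k ^ q := by
    rw [hb, ← h7, mul_comm (k ^ q - 1)] at hr
    have := Nat.lt_of_mul_lt_mul_left hr
    omega
  refine ⟨b, mem_range.mpr hlt, ?_⟩
  rw [hdm]
  unfold geomB
  rw [hb, mul_comm]

theorem sum_le_of_surj {α : Type} (N : Finset ℕ) (S : Finset α) (φ : α → ℕ) (g : ℕ → ℝ)
    (hg : ∀ n, 0 ≤ g n) (h : ∀ r ∈ N, ∃ x ∈ S, φ x = r) : ∑ r ∈ N, g r ≤ ∑ x ∈ S, g (φ x) := by
  classical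
  rcases N.eq_empty_or_nonempty with rfl | ⟨r₀, hr₀⟩
  · rw [Finset.sum_empty]
    exact Finset.sum_nonneg fun _ _ => hg _
  obtain ⟨x₀, -, -⟩ := h r₀ hr₀
  have : Inhabited α := ⟨x₀⟩
  choose! x hxS hx using h
  calc ∑ r ∈ N, g r = ∑ r ∈ N, g (φ (x r)) := Finset.sum_congr rfl (fun r hr => by rw [hx r hr])
    _ = ∑ y ∈ N.image x, g (φ y) := by
      rw [Finset.sum_image]
      intro a ha b hb hab
      rw [← hx a ha, ← hx b hb, hab]
    _ ≤ _ := Finset.sum_le_sum_of_subset_of_nonneg (by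
        intro y hy
        obtain ⟨r, hr, rfl⟩ := mem_image.mp hy
        exact hxS r hr) (fun _ _ _ => hg _)

theorem m18 (h14 : S_pow) (h15 : S_cj) (h16 : S_class) : S_Fup := by
  classical
  intro k T K hT hK m z hm hz hz1
  have hk := hT.two_le
  obtain ⟨-, hsymm, htrans, -, -, hclen, -, -, -⟩ := h15 k T hT
  obtain ⟨-, huniq, horb⟩ := h16 k hk m hm
  obtain ⟨g, hg⟩ : ∃ g : ℕ → ℝ, ∀ n, g n = z ^ clen k T ((n : ℚ), (m : ℤ)) := ⟨_, fun _ => rfl⟩
  obtain ⟨f, hf⟩ : ∃ f : ℕ → ℝ, ∀ n, f n = z ^ len k T ((n : ℚ), (m : ℤ)) := ⟨_, fun _ => rfl⟩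
  have hg0 : ∀ n, 0 ≤ g n := fun n => by rw [hg]; positivity
  have hf0 : ∀ n, 0 ≤ f n := fun n => by rw [hf]; positivity
  have hzK : 0 ≤ z ^ K := by positivity
  set D : Finset ℕ := (Rep k m).filter (fun r => Set.InjOn (sg k m r) (range m : Set ℕ)) with hD
  set N : Finset ℕ := (Rep k m).filter (fun r => ¬ Set.InjOn (sg k m r) (range m : Set ℕ)) with hN
  have hF : F k T m z = ∑ r ∈ D, g r + ∑ r ∈ N, g r := by
    unfold F
    rw [hD, hN, Finset.sum_filter_add_sum_filter_not]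
    exact Finset.sum_congr rfl fun r _ => (hg r).symm
  have hA : A k T m z = ∑ u ∈ range (k ^ m), f u := by
    unfold A
    exact Finset.sum_congr rfl fun r _ => (hf r).symm
  have h1 : z ^ K * (m * ∑ r ∈ D, g r) ≤ A k T m z := by
    have e1 : z ^ K * (m * ∑ r ∈ D, g r) ≤ ∑ r ∈ D, ∑ j ∈ range m, f (sg k m r j) := by
      rw [Finset.mul_sum, Finset.mul_sum]
      apply Finset.sum_le_sum
      intro r _
      have e2 : z ^ K * ((m : ℝ) * g r) = ∑ j ∈ range m, z ^ K * g r := by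
        rw [Finset.sum_const, card_range, nsmul_eq_mul]
        ring
      rw [e2]
      apply Finset.sum_le_sum
      intro j _
      have e3 := hclen _ _ (horb r j)
      have e4 := h14 k T K hT hK (sg k m r j) m 1 hm (sg_lt hk hm r j)
      have e5 : geomB k (sg k m r j) m 1 = sg k m r j := by
        unfold geomB
        simp
      rw [e5, one_mul, one_mul, mul_one] at e4
      rw [hg, hf, e3, ← pow_add]
      apply pow_le_pow_of_le_one hz.le hz1
      rw [add_comm]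
      exact e4
    refine e1.trans ?_
    rw [hA, ← Finset.sum_product']
    have e6 : ∑ x ∈ D ×ˢ range m, f (sg k m x.1 x.2) =
        ∑ u ∈ (D ×ˢ range m).image (fun x => sg k m x.1 x.2), f u := by
      rw [Finset.sum_image]
      rintro ⟨r, j⟩ hx ⟨r', j'⟩ hx' he
      have hx1 := Finset.mem_product.mp (Finset.mem_coe.mp hx)
      have hx2 := Finset.mem_product.mp (Finset.mem_coe.mp hx')
      simp only at hx1 hx2 he
      have hr1 := Finset.mem_filter.mp hx1.1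
      have hr2 := Finset.mem_filter.mp hx2.1
      have c1 := horb r j
      have c2 := horb r' j'
      have he' : (k ^ j * r) % (k ^ m - 1) = (k ^ j' * r') % (k ^ m - 1) := he
      rw [he'] at c1
      have hrr : r = r' := huniq r hr1.1 r' hr2.1 (htrans _ _ _ c1 (hsymm _ _ c2))
      subst hrr
      have hjj : j = j' := hr1.2 (Finset.mem_coe.mpr hx1.2) (Finset.mem_coe.mpr hx2.2) he
      rw [hjj]
    rw [e6]
    apply Finset.sum_le_sum_of_subset_of_nonneg
    · intro u hu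
      obtain ⟨x, _, rfl⟩ := mem_image.mp hu
      exact mem_range.mpr (sg_lt hk hm _ _)
    · intro u _ _
      exact hf0 u
  have h2 : ∑ r ∈ N, g r ≤ E k T m z := by
    have e1 : E k T m z = ∑ x ∈ m.properDivisors.sigma (fun q => range (k ^ q)),
        g (geomB k x.2 x.1 (m / x.1)) := by
      unfold E
      rw [Finset.sum_sigma]
      refine Finset.sum_congr rfl fun q _ => Finset.sum_congr rfl fun b _ => ?_
      rw [hg]
    rw [e1]
    apply sum_le_of_surj (φ := fun x : (_ : ℕ) × ℕ => geomB k x.2 x.1 (m / x.1)) N _ g hg0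
    intro r hr
    have hr1 := Finset.mem_filter.mp hr
    have hr2 := mem_range.mp (Finset.mem_filter.mp hr1.1).1
    have hr3 := hr1.2
    unfold Set.InjOn at hr3
    push Not at hr3
    obtain ⟨j, hj, j', hj', he, hne⟩ := hr3
    have hj := mem_range.mp (Finset.mem_coe.mp hj)
    have hj' := mem_range.mp (Finset.mem_coe.mp hj')
    rcases Nat.lt_or_gt_of_ne hne with hlt | hlt
    · obtain ⟨q, hq, b, hb, hgeo⟩ := exists_geom hk hm hr2 hlt hj' he
      exact ⟨⟨q, b⟩, Finset.mem_sigma.mpr ⟨hq, hb⟩, hgeo⟩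
    · obtain ⟨q, hq, b, hb, hgeo⟩ := exists_geom hk hm hr2 hlt hj he.symm
      exact ⟨⟨q, b⟩, Finset.mem_sigma.mpr ⟨hq, hb⟩, hgeo⟩
  rw [hF, mul_add, mul_add]
  exact add_le_add h1 (mul_le_mul_of_nonneg_left
    (mul_le_mul_of_nonneg_left h2 (Nat.cast_nonneg m)) hzK)

end Pool.Agent.J6H35.CG18
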